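import Mathlib

/-!
# MP_6850eb_nt: the maps `k ↦ 2k+2` and `k ↦ 3k+3`

We disprove Q1: for every integer `a` with `-11 ≤ a ≤ 10` the map `s_a` is not injective.
This range contains `a = -4` (and `-5, …, -11`) and `a = 3` (and `4, …, 10`), where Q1 claims
injectivity.  The smallest witnesses are `s_{-4}(51) = s_{-4}(128) = -258` and
`s_3(2043) = s_3(21504) = 177150`.
-/

namespace Pool.Agent.Results.MP_6850eb_nt.Disproof

/-- `IsSeq a s` says that `s : ℕ+ → ℤ` is the map `s_a` of the problem: `s 1 = a`,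
`s (2k) = 2 s k + 2` and `s (2k+1) = 3 s k + 3` for all `k ≥ 1`. -/
def IsSeq (a : ℤ) (s : ℕ+ → ℤ) : Prop :=
  s 1 = a ∧ (∀ k : ℕ+, s (2 * k) = 2 * s k + 2) ∧ (∀ k : ℕ+, s (2 * k + 1) = 3 * s k + 3)

/-- Evaluation of `s_a` at `n` by `fuel` steps of the recursion. -/
def ev (a : ℤ) : ℕ → ℕ → ℤ
  | 0, _ => a
  | f + 1, n => if n ≤ 1 then a else
      if n % 2 = 0 then 2 * ev a f (n / 2) + 2 else 3 * ev a f (n / 2) + 3

theorem ev_eq (a : ℤ) (s : ℕ+ → ℤ) (hs : IsSeq a s) :
    ∀ (f : ℕ) (n : ℕ+), (n : ℕ) < 2 ^ (f + 1) → ev a f n = s n := by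
  obtain ⟨h1, h2, h3⟩ := hs
  intro f
  induction f with
  | zero =>
    intro n hlt
    have hn := n.pos
    have : n = 1 := PNat.eq (by rw [PNat.one_coe]; omega)
    subst this
    simp only [ev]
    exact h1.symm
  | succ f ih =>
    intro n hlt
    have hn := n.pos
    by_cases hn1 : (n : ℕ) ≤ 1
    · have : n = 1 := PNat.eq (by rw [PNat.one_coe]; omega)
      subst this
      simp only [ev, PNat.one_coe, le_refl, if_true]
      exact h1.symm
    · obtain ⟨k, hk⟩ : ∃ k : ℕ+, (k : ℕ) = (n : ℕ) / 2 :=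
        ⟨Nat.toPNat ((n : ℕ) / 2) (by omega), rfl⟩
      have hlt' : (k : ℕ) < 2 ^ (f + 1) := by
        rw [pow_succ] at hlt
        omega
      have hih := ih k hlt'
      rcases Nat.mod_two_eq_zero_or_one n with hm | hm
      · have e : n = 2 * k := by
          apply PNat.eq
          have h2' : ((2 : ℕ+) : ℕ) = 2 := rfl
          rw [PNat.mul_coe, h2']
          omega
        have e2 : s n = 2 * s k + 2 := by rw [e, h2]
        rw [e2, ← hih, ev, if_neg hn1, if_pos hm, hk]
      · have e : n = 2 * k + 1 := by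
          apply PNat.eq
          have h2' : ((2 : ℕ+) : ℕ) = 2 := rfl
          rw [PNat.add_coe, PNat.mul_coe, h2', PNat.one_coe]
          omega
        have e2 : s n = 3 * s k + 3 := by rw [e, h3]
        rw [e2, ← hih, ev, if_neg hn1, if_neg (by omega), hk]

theorem ev_succ (a : ℤ) : ∀ (f n : ℕ), n < 2 ^ (f + 1) → ev a (f + 1) n = ev a f n := by
  intro f
  induction f with
  | zero =>
    intro n hn
    have : n ≤ 1 := by omega
    simp [ev, this]
  | succ f ih =>
    intro n hn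
    have h : n / 2 < 2 ^ (f + 1) := by
      rw [pow_succ] at hn
      omega
    have := ih (n / 2) h
    rw [ev, ev.eq_def a (f + 1) n, this]

theorem ev_stable (a : ℤ) (n : ℕ) (f : ℕ) (h : n < 2 ^ (f + 1)) :
    ∀ g, ev a (f + g) n = ev a f n := by
  intro g
  induction g with
  | zero => rfl
  | succ g ih =>
    rw [← add_assoc, ev_succ a (f + g) n, ih]
    exact lt_of_lt_of_le h (Nat.pow_le_pow_right (by norm_num) (by omega))

/-- The recursion of the problem has a solution for every `a`. -/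
theorem exists_isSeq (a : ℤ) : ∃ s : ℕ+ → ℤ, IsSeq a s := by
  have key : ∀ k : ℕ, 0 < k → ∀ b : ℕ, b < 2 →
      ev a (2 * k + b) (2 * k + b) = if b = 0 then 2 * ev a k k + 2 else 3 * ev a k k + 3 := by
    intro k hk b hb
    obtain ⟨m, hm⟩ : ∃ m, 2 * k + b = m + 1 := ⟨2 * k + b - 1, by omega⟩
    have hkm : k ≤ m := by omega
    have hlt : k < 2 ^ (k + 1) := lt_trans (Nat.lt_two_pow_self) (Nat.pow_lt_pow_right (by norm_num) (by omega))
    have hst : ev a m k = ev a k k := by
      have := ev_stable a k k hlt (m - k)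
      rwa [Nat.add_sub_cancel' hkm] at this
    have h1 : ¬ (m + 1 ≤ 1) := by omega
    have hdiv : (m + 1) / 2 = k := by omega
    rw [hm, ev, if_neg h1, hdiv, hst]
    have : (m + 1) % 2 = b := by omega
    rw [this]
  refine ⟨fun n => ev a n n, ?_, ?_, ?_⟩
  · simp [ev]
  · intro k
    have := key k k.pos 0 (by norm_num)
    simpa using this
  · intro k
    have := key k k.pos 1 (by norm_num)
    simpa using this

theorem not_inj (a : ℤ) (f m n : ℕ) (hm : 0 < m) (hn : 0 < n) (hmn : m ≠ n)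
    (hm' : m < 2 ^ (f + 1)) (hn' : n < 2 ^ (f + 1)) (h : ev a f m = ev a f n)
    (s : ℕ+ → ℤ) (hs : IsSeq a s) : ¬ Function.Injective s := by
  intro hinj
  have e1 := ev_eq a s hs f (Nat.toPNat m hm) hm'
  have e2 := ev_eq a s hs f (Nat.toPNat n hn) hn'
  have e3 : s (Nat.toPNat m hm) = s (Nat.toPNat n hn) := by
    rw [← e1, ← e2]
    exact h
  have := congrArg PNat.val (hinj e3)
  exact hmn this

/-- Disproof of Q1 of MP_6850eb_nt: for every integer `a` with `-11 ≤ a ≤ 10` the map `s_a`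
(which exists) is not injective. -/
theorem result : ∀ a : ℤ, -11 ≤ a → a ≤ 10 →
    (∃ s : ℕ+ → ℤ, IsSeq a s) ∧ ∀ s : ℕ+ → ℤ, IsSeq a s → ¬ Function.Injective s := by
  intro a ha hb
  refine ⟨exists_isSeq a, ?_⟩
  have h : ∃ m n : ℕ, 0 < m ∧ 0 < n ∧ m ≠ n ∧ m < 2 ^ (30 + 1) ∧ n < 2 ^ (30 + 1) ∧
      ev a 30 m = ev a 30 n := by
    interval_cases a
    · exact ⟨2003, 8384, by decide +kernel⟩
    · exact ⟨239, 1088, by decide +kernel⟩
    · exact ⟨207, 1024, by decide +kernel⟩
    · exact ⟨251, 1280, by decide +kernel⟩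
    · exact ⟨1855, 10512, by decide +kernel⟩
    · exact ⟨367, 2112, by decide +kernel⟩
    · exact ⟨143, 448, by decide +kernel⟩
    · exact ⟨51, 128, by decide +kernel⟩
    · exact ⟨3, 4, by decide +kernel⟩
    · exact ⟨1, 2, by decide +kernel⟩
    · exact ⟨2, 3, by decide +kernel⟩
    · exact ⟨11, 16, by decide +kernel⟩
    · exact ⟨15, 20, by decide +kernel⟩
    · exact ⟨7, 8, by decide +kernel⟩
    · exact ⟨2043, 21504, by decide +kernel⟩
    · exact ⟨4351, 49232, by decide +kernel⟩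
    · exact ⟨2367, 28672, by decide +kernel⟩
    · exact ⟨71547, 939008, by decide +kernel⟩
    · exact ⟨551231, 7930880, by decide +kernel⟩
    · exact ⟨1048175, 106958848, by decide +kernel⟩
    · exact ⟨2029375, 205557760, by decide +kernel⟩
    · exact ⟨1531327, 151257104, by decide +kernel⟩
  obtain ⟨m, n, hm, hn, hmn, hm', hn', he⟩ := h
  exact not_inj a 30 m n hm hn hmn hm' hn' he

end Pool.Agent.Results.MP_6850eb_nt.Disproof
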